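import Pool.Agent.Helper187.CC.Stmts

/-! Task M of the project CYCLE: the sum over one letter factorises. -/

set_option autoImplicit false
open Finset

namespace H187CC

variable {A : Type}

lemma del_sum711 {ι : Type} (s : Finset ι) (t : ℝ) (f : ι → List A → ℝ) (w : List A) :
    del t (fun v => ∑ c ∈ s, f c v) w = ∑ c ∈ s, del t (f c) w := by
  induction w generalizing f with
  | nil => simp
  | cons a w ih =>
    simp only [del_cons]
    rw [ih, Finset.mul_sum, ← Finset.sum_add_distrib]

lemma improper_dbl (u w : List A) (c : A) : ¬ Proper (u ++ c :: c :: w) := by
  intro h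
  exact (Proper_append_right h).1 rfl

lemma del_dbl (t : ℝ) (u w : List A) (c : A) :
    del t (pi' t) (u ++ c :: c :: w) =
      (t ^ (w.length + 1) + t ^ w.length) * pi' t (u ++ c :: w) := by
  rw [del_append]
  have h1 : del t (fun u' => pi' t (u' ++ c :: c :: w)) u = 0 := by
    rw [← del_zero t u]
    apply del_congr
    intro v _
    exact pi_improper t _ (improper_dbl v w c)
  have h2 : del t (fun v => pi' t (u ++ c :: c :: v)) w = 0 := by
    rw [← del_zero t w]
    apply del_congr
    intro v _
    exact pi_improper t _ (improper_dbl u v c)
  rw [h1, del_cons, del_cons, h2]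
  simp only [List.length_cons]
  ring

lemma proper_concat {u : List A} {c : A} (hu : Proper u) (h : u.getLast? ≠ some c) :
    Proper (u ++ [c]) := by
  induction u with
  | nil => trivial
  | cons a u ih =>
    cases u with
    | nil =>
      refine ⟨?_, trivial⟩
      intro hac
      apply h
      simp [hac]
    | cons b u =>
      refine ⟨hu.1, ih hu.2 ?_⟩
      intro h2
      apply h
      rw [← h2]
      simp

lemma proper_cons' {w : List A} {c : A} (hw : Proper w) (h : w.head? ≠ some c) :
    Proper (c :: w) := by
  cases w with
  | nil => trivial
  | cons b w =>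
    refine ⟨?_, hw⟩
    intro hcb
    apply h
    simp [hcb]

lemma letter_rec [DecidableEq A] (t : ℝ) (h0 : 0 < t) (h1 : t < 1) (u w : List A) (c : A)
    (hu : Proper u) (hw : Proper w) :
    (1 - t ^ (u.length + w.length + 2)) * pi' t (u ++ c :: w) = del t (pi' t) (u ++ c :: w)
      - (if u.getLast? = some c then 1 else 0) * ((t ^ (w.length + 1) + t ^ w.length) *
          pi' t (u ++ w))
      - (if w.head? = some c then 1 else 0) * ((t ^ w.length + t ^ (w.length - 1)) *
          pi' t (u ++ w)) := by
  by_cases hl : u.getLast? = some c
  · obtain ⟨u0, rfl⟩ : ∃ u0, u = u0 ++ [c] := by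
      rw [List.getLast?_eq_some_iff] at hl
      exact hl
    have e1 : (u0 ++ [c]) ++ c :: w = u0 ++ c :: c :: w := by simp
    have e2 : (u0 ++ [c]) ++ w = u0 ++ c :: w := by simp
    rw [e1, e2, pi_improper t _ (improper_dbl u0 w c), del_dbl, if_pos hl]
    by_cases hh : w.head? = some c
    · obtain ⟨w0, rfl⟩ : ∃ w0, w = c :: w0 := by
        cases w with
        | nil => simp at hh
        | cons b w => simp at hh; exact ⟨w, by rw [hh]⟩
      rw [pi_improper t _ (improper_dbl u0 w0 c)]
      ring
    · rw [if_neg hh]
      ring
  · rw [if_neg hl]
    by_cases hh : w.head? = some c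
    · obtain ⟨w0, rfl⟩ : ∃ w0, w = c :: w0 := by
        cases w with
        | nil => simp at hh
        | cons b w => simp at hh; exact ⟨w, by rw [hh]⟩
      rw [pi_improper t _ (improper_dbl u w0 c), del_dbl, if_pos hh, List.length_cons,
        Nat.add_sub_cancel]
      ring
    · rw [if_neg hh]
      have hp : Proper (u ++ c :: w) := Proper_glue (proper_concat hu hl) (proper_cons' hw hh)
      have h2 := pi_rec t h0 h1 _ hp (by simp)
      have e : (u ++ c :: w).length + 1 = u.length + w.length + 2 := by
        rw [List.length_append, List.length_cons]; ring
      rw [e] at h2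
      rw [h2]
      ring

theorem taskM : TaskM := by
  intro q t h0 h1 hq
  have hS : ∀ n : ℕ, ∀ u w : List (Fin q), u.length + w.length = n →
      ∑ c : Fin q, pi' t (u ++ c :: w) = (1 + t) / t * (pi' t u * pi' t w) := by
    intro n
    induction n using Nat.strong_induction_on with
    | _ n ih =>
      intro u w hn
      by_cases hu : Proper u
      swap
      · rw [pi_improper t u hu]
        have h2 : ∀ c : Fin q, pi' t (u ++ c :: w) = 0 := fun c =>
          pi_improper t _ fun h => hu (Proper_append_left h)
        simp [h2]
      by_cases hw : Proper w
      swap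
      · rw [pi_improper t w hw]
        have h2 : ∀ c : Fin q, pi' t (u ++ c :: w) = 0 := fun c =>
          pi_improper t _ fun h => hw (Proper_tail (Proper_append_right h))
        simp [h2]
      have hne := pow_ne t h0 h1 (u.length + w.length + 2) (by omega)
      apply mul_left_cancel₀ hne
      rw [Finset.mul_sum, Finset.sum_congr rfl fun c _ => letter_rec t h0 h1 u w c hu hw]
      rw [Finset.sum_sub_distrib, Finset.sum_sub_distrib]
      -- the sum of the deletions
      have hdel : ∑ c : Fin q, del t (pi' t) (u ++ c :: w) =
          t ^ (w.length + 1) * ((1 + t) / t * pi' t w * del t (pi' t) u) +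
            q * (t ^ w.length * pi' t (u ++ w)) + (1 + t) / t * pi' t u * del t (pi' t) w := by
        have e1 : ∀ c : Fin q, del t (pi' t) (u ++ c :: w) =
            t ^ (w.length + 1) * del t (fun u' => pi' t (u' ++ c :: w)) u +
              t ^ w.length * pi' t (u ++ w) + del t (fun w' => pi' t (u ++ c :: w')) w := by
          intro c
          rw [del_append, del_cons, List.length_cons]
          ring
        rw [Finset.sum_congr rfl fun c _ => e1 c, Finset.sum_add_distrib, Finset.sum_add_distrib,
          ← Finset.mul_sum, ← del_sum711, ← del_sum711, Finset.sum_const, Finset.card_univ,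
          Fintype.card_fin, nsmul_eq_mul]
        have e2 : del t (fun v => ∑ c : Fin q, pi' t (v ++ c :: w)) u =
            (1 + t) / t * pi' t w * del t (pi' t) u := by
          rw [← del_mul]
          apply del_congr
          intro v hv
          rw [ih (v.length + w.length) (by omega) v w rfl]
          ring
        have e3 : del t (fun v => ∑ c : Fin q, pi' t (u ++ c :: v)) w =
            (1 + t) / t * pi' t u * del t (pi' t) w := by
          rw [← del_mul]
          apply del_congr
          intro v hv
          rw [ih (u.length + v.length) (by omega) u v rfl]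
          ring
        rw [e2, e3]
      rw [hdel, ← Finset.sum_mul, ← Finset.sum_mul]
      have hpn : pi' t ([] : List (Fin q)) = 1 / (1 - t) := pi_nil t
      have ht1 : (1 : ℝ) - t ≠ 0 := by linarith
      have ht0 : t ≠ 0 := h0.ne'
      have hs : ∀ o : Option (Fin q), ∑ c : Fin q, (if o = some c then (1 : ℝ) else 0) =
          if o = none then 0 else 1 := by
        intro o
        cases o with
        | none => simp
        | some l => simp
      rw [hs, hs]
      rcases List.eq_nil_or_concat u with rfl | ⟨u0, l, hul⟩
      · rcases w with _ | ⟨h, w0⟩
        · simp only [List.getLast?_nil, List.head?_nil, if_true, del_nil, List.append_nil,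
            List.length_nil, hpn]
          rw [hq]
          field_simp
          ring
        · have hr := pi_rec t h0 h1 (h :: w0) hw (by simp)
          simp only [List.getLast?_nil, List.head?_cons, if_true, reduceCtorEq, if_false, del_nil,
            List.nil_append, List.length_nil, hpn, ← hr, List.length_cons, Nat.add_sub_cancel]
          rw [hq]
          field_simp
          ring
      · have hul' : u = u0 ++ [l] := by rw [hul, List.concat_eq_append]
        have hune : u ≠ [] := by rw [hul']; simp
        have hru := pi_rec t h0 h1 u hu hune
        have hgl : u.getLast? = some l := by rw [hul']; simp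
        rw [hgl]
        rcases w with _ | ⟨h, w0⟩
        · simp only [List.head?_nil, reduceCtorEq, if_true, if_false, del_nil, List.append_nil,
            List.length_nil, hpn, ← hru]
          rw [hq]
          field_simp
          ring
        · have hr := pi_rec t h0 h1 (h :: w0) hw (by simp)
          simp only [List.head?_cons, reduceCtorEq, if_false, List.length_cons,
            Nat.add_sub_cancel, ← hr, ← hru]
          rw [hq]
          field_simp
          ring
  intro u w
  exact hS _ u w rfl

end H187CC
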